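import Pool.Agent.Y504.CO.Stm5
import Pool.Agent.Y600.CO.Base

/-!
# Every periodic orbit in a minimal limit has an outgoing orbit (job CO-K4 of helper504)

Proof plan by helper504; uses the first exit lemma of helper600.
-/

set_option autoImplicit false

open scoped Topology
open Filter Set Metric

universe u

namespace Pool.Agent.Y921.CO.K4

open Pool.Agent.Y504.CO Pool.Agent.TH80.OMS Pool.Agent.Y600.CO

variable {X : Type u} [MetricSpace X]

/-- limits of points of the segments are in `H` -/
theorem lim_mem_H {f : X → X} {H : Set X} (hH : IsClosed H) {a : ℕ → X} {n i : ℕ → ℕ} {ε : ℕ → ℝ}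
    (hε : Tendsto ε atTop (𝓝 0)) (hs : ∀ k, Seg f H (ε k) (a k) (n k))
    (hi : ∀ᶠ k in atTop, i k ≤ n k) {w : X} (hw : Tendsto (fun k => f^[i k] (a k)) atTop (𝓝 w)) :
    w ∈ H := by
  rw [← hH.closure_eq, Metric.mem_closure_iff]
  intro δ hδ
  have h1 : ∀ᶠ k in atTop, ε k < δ / 2 := hε.eventually (gt_mem_nhds (by positivity))
  have h2 : ∀ᶠ k in atTop, dist (f^[i k] (a k)) w < δ / 2 :=
    hw.eventually (ball_mem_nhds w (by positivity))
  obtain ⟨k, ⟨h1k, h2k⟩, h3k⟩ := ((h1.and h2).and hi).exists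
  obtain ⟨y, hy, hd⟩ := (hs k).near (i k) h3k
  refine ⟨y, hy, ?_⟩
  have := dist_triangle_left w y (f^[i k] (a k))
  linarith

theorem main (h0 : S_T0.{u}) : S_K4.{u} := by
  intro X _ _ f hiso H hH p hp hpH
  have hHf : f '' H = H := (h0 X f).2.1 H hH.1
  have hcl : IsClosed H := hH.1.1
  obtain ⟨O, hO, hpO, hOi⟩ := hiso p hp
  -- the full orbits of points of `H` are in `H`
  have hfw : ∀ (i : ℕ) (y : X), y ∈ H → f^[i] y ∈ H := by
    intro i
    induction i with
    | zero => intro y hy; exact hy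
    | succ i ih =>
      intro y hy
      rw [Function.iterate_succ_apply]
      refine ih _ ?_
      rw [← hHf]; exact mem_image_of_mem _ hy
  have hbw : ∀ (i : ℕ) (y : X), y ∈ H → (f ^ (-(i : ℤ))) y ∈ H := by
    intro i
    induction i with
    | zero => intro y hy; simpa using (by rw [neg_zero, zz]; exact hy : (f ^ (-(0 : ℤ))) y ∈ H)
    | succ i ih =>
      intro y hy
      rw [← hHf] at hy
      obtain ⟨y', hy', rfl⟩ := hy
      have h1 : (f ^ (-((i + 1 : ℕ) : ℤ))) (f y') = (f ^ (-(i : ℤ))) y' := by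
        have h2 : f y' = (f ^ (1 : ℤ)) y' := by rw [zpow_one]
        rw [h2, ← zadd]
        congr 2
        push_cast; ring
      rw [h1]
      exact ih _ hy'
  have hz : ∀ (i : ℤ) (y : X), y ∈ H → (f ^ i) y ∈ H := by
    intro i y hy
    rcases Int.le_total 0 i with h | h
    · obtain ⟨m, rfl⟩ := Int.eq_ofNat_of_zero_le h
      rw [zpow_nat]; exact hfw m y hy
    · obtain ⟨m, hm⟩ := Int.eq_ofNat_of_zero_le (by omega : 0 ≤ -i)
      have : i = -(m : ℤ) := by omega
      rw [this]; exact hbw m y hy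
  -- a point of `H` outside of `closure O`
  obtain ⟨q, hqH, hqO⟩ : ∃ q ∈ H, q ∉ closure O := by
    by_contra hc
    push Not at hc
    apply hH.2.1
    intro y hy
    have h1 := hOi (fun i => (f ^ i) y) (fun i => zsucc f i y) (fun i => hc _ (hz i y hy))
    have h2 : (f ^ (0 : ℤ)) y = y := zz f y
    rw [h2] at h1
    exact orb_per f hp h1
  -- segments
  choose a₀ n₀ hseg₀ using fun k : ℕ => hH.1.2.2 (1 / ((k : ℝ) + 1)) (by positivity)
  obtain ⟨x, φ₀, hφ₀, hx₀⟩ := CompactSpace.tendsto_subseq a₀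
  have h1k : Tendsto (fun k : ℕ => 1 / ((k : ℝ) + 1)) atTop (𝓝 0) :=
    tendsto_one_div_add_atTop_nhds_zero_nat
  obtain ⟨a, ha⟩ : ∃ a : ℕ → X, a = fun k => a₀ (φ₀ k) := ⟨_, rfl⟩
  obtain ⟨n, hn⟩ : ∃ n : ℕ → ℕ, n = fun k => n₀ (φ₀ k) := ⟨_, rfl⟩
  obtain ⟨ε, hε⟩ : ∃ ε : ℕ → ℝ, ε = fun k => 1 / ((φ₀ k : ℝ) + 1) := ⟨_, rfl⟩
  have hεT : Tendsto ε atTop (𝓝 0) := by rw [hε]; exact h1k.comp hφ₀.tendsto_atTop
  have hseg : ∀ k, Seg f H (ε k) (a k) (n k) := by
    intro k; rw [ha, hn, hε]; exact hseg₀ (φ₀ k)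
  have hax : Tendsto a atTop (𝓝 x) := by rw [ha]; exact hx₀
  have hnx : Tendsto (fun k => f^[n k] (a k)) atTop (𝓝 x) := by
    rw [tendsto_iff_dist_tendsto_zero] at hax ⊢
    refine squeeze_zero (fun k => dist_nonneg) (fun k => ?_)
      (by simpa using hεT.add hax : Tendsto (fun k => ε k + dist (a k) x) atTop (𝓝 0))
    have h1 := dist_triangle (f^[n k] (a k)) (a k) x
    have h2 := (hseg k).ends
    linarith
  have hxH : x ∈ H := lim_mem_H hcl hεT hseg (Eventually.of_forall fun k => le_refl (n k)) hnx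
  choose t htn htd using fun k => (hseg k).dense p hpH
  have htp : Tendsto (fun k => f^[t k] (a k)) atTop (𝓝 p) := by
    rw [tendsto_iff_dist_tendsto_zero]
    exact squeeze_zero (fun k => dist_nonneg) (fun k => (htd k).le) hεT
  have hpit : ∀ j : ℕ, f^[j] p ∈ O := fun j => hpO (orb_it f p j)
  by_cases hA : ∃ᶠ k in atTop, ∃ e, t k < e ∧ e ≤ n k ∧ f^[e] (a k) ∉ O
  · -- Case A
    obtain ⟨ψ, hψ, hc⟩ := extraction_of_frequently_atTop hA
    choose c hc1 hc2 hc3 using hc
    obtain ⟨e, φ, w, hφ, he, -, hw, hwO, hbww⟩ := exit f O hO (fun k => a (ψ k)) (fun k => t (ψ k)) c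
      (Eventually.of_forall hc1) (Eventually.of_forall hc3)
      (fun j _ => by
        have h2 : Tendsto (fun k => f^[j] (f^[t (ψ k)] (a (ψ k)))) atTop (𝓝 (f^[j] p)) :=
          ((f.continuous.iterate j).tendsto p).comp (htp.comp hψ.tendsto_atTop)
        filter_upwards [h2.eventually (hO.mem_nhds (hpit j))] with k hk
        rw [add_comm, Function.iterate_add_apply]; exact hk)
    refine ⟨w, ?_, fun h => hwO (hpO h), alphaTo_of f hOi w hbww⟩
    refine lim_mem_H hcl (hεT.comp (hψ.comp hφ).tendsto_atTop) (fun k => hseg (ψ (φ k)))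
      (i := fun k => e (φ k)) ?_ hw
    filter_upwards [hφ.tendsto_atTop.eventually he] with k hk
    exact hk.2.1.trans (hc2 _)
  · rw [not_frequently] at hA
    by_cases hxo : x ∈ orb f p
    · -- Case B1
      choose i hin hid using fun k => (hseg k).dense q hqH
      have hiq : Tendsto (fun k => f^[i k] (a k)) atTop (𝓝 q) := by
        rw [tendsto_iff_dist_tendsto_zero]
        exact squeeze_zero (fun k => dist_nonneg) (fun k => (hid k).le) hεT
      have hiO : ∀ᶠ k in atTop, f^[i k] (a k) ∉ O := by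
        filter_upwards [hiq.eventually (isClosed_closure.isOpen_compl.mem_nhds hqO)] with k hk hc
        exact hk (subset_closure hc)
      have haO : ∀ᶠ k in atTop, a k ∈ O := hax.eventually (hO.mem_nhds (hpO hxo))
      have hxit : ∀ j : ℕ, f^[j] x ∈ O := by
        intro j
        obtain ⟨m, rfl⟩ := hxo
        apply hpO
        refine ⟨j + m, ?_⟩
        show f^[j + m] p = f^[j] (f^[m] p)
        rw [Function.iterate_add_apply]
      obtain ⟨e, φ, w, hφ, he, -, hw, hwO, hbww⟩ := exit f O hO a (fun _ => 0) i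
        (by
          filter_upwards [hiO, haO] with k h1 h2
          rcases Nat.eq_zero_or_pos (i k) with h | h
          · rw [h] at h1; exact absurd h2 h1
          · exact h) hiO
        (fun j _ => by
          have h2 : Tendsto (fun k => f^[j] (a k)) atTop (𝓝 (f^[j] x)) :=
            ((f.continuous.iterate j).tendsto x).comp hax
          filter_upwards [h2.eventually (hO.mem_nhds (hxit j))] with k hk
          rw [zero_add]; exact hk)
      refine ⟨w, ?_, fun h => hwO (hpO h), alphaTo_of f hOi w hbww⟩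
      refine lim_mem_H hcl (hεT.comp hφ.tendsto_atTop) (fun k => hseg (φ k))
        (i := fun k => e (φ k)) ?_ hw
      filter_upwards [hφ.tendsto_atTop.eventually he] with k hk
      exact hk.2.1.trans (hin _)
    · -- Case B2
      have hgap : ∀ N : ℕ, ∀ᶠ k in atTop, t k + N < n k := by
        intro N
        have h3 : ∀ᶠ k in atTop, ∀ m ∈ Finset.range (N + 1), n k ≠ t k + m := by
          refine (Filter.eventually_all_finset _).2 fun m _ => ?_
          have h4 : x ≠ f^[m] p := fun hc => hxo ⟨m, hc.symm⟩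
          have h5 : Tendsto (fun k => f^[m] (f^[t k] (a k))) atTop (𝓝 (f^[m] p)) :=
            ((f.continuous.iterate m).tendsto p).comp htp
          filter_upwards [ne_eventually h4 hnx h5] with k hk hc
          apply hk
          rw [hc, add_comm, Function.iterate_add_apply]
        filter_upwards [h3] with k hk
        by_contra hc
        have h6 := htn k
        exact hk (n k - t k) (Finset.mem_range.2 (by omega)) (by omega)
      refine ⟨x, hxH, hxo, alphaTo_of f hOi x fun l _ => ?_⟩
      have ht : Tendsto (fun k => (f ^ (-(l : ℤ))) (f^[n k] (a k))) atTop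
          (𝓝 ((f ^ (-(l : ℤ))) x)) := ((zcont f _).tendsto x).comp hnx
      refine isClosed_closure.mem_of_tendsto ht ?_
      filter_upwards [hgap l, hA] with k hk hk2
      apply subset_closure
      rw [zneg_it f l _ (by omega)]
      by_contra hc
      exact hk2 ⟨n k - l, by omega, by omega, hc⟩

end Pool.Agent.Y921.CO.K4
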